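import Pool.Agent.Helper72.LS.L3

/-!
Project LS (captain helper72), piece P11: `mr_of_min`, `exists_min`, `ext_mindeg`.
-/

set_option autoImplicit false

namespace Pool.Agent.Helper71.LS

open Finset
open scoped Classical
open Pool.Agent.Helper72.LS

theorem mr_of_min {V : Type} [Fintype V] (G : SimpleGraph V) (k δ h : ℤ) (w : V)
    (hpos : ∀ u, 1 ≤ k - δ + Xv G k u)
    (hmin : ∀ u, ev G k δ h w * (k - δ + Xv G k u) ≤ ev G k δ h u * (k - δ + Xv G k w)) :
    (k - δ + Xv G k w) * th G k δ h w
      ≤ Yv G k δ h w * (ev G k δ h w + (Dj k δ - psG G k h) - eI G (PH G w)) := by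
  have hA : ∀ u, k - δ + Xv G k u = (Fintype.card V : ℤ) - δ - dg G u := by
    intro u
    unfold Xv
    ring
  have hY : ∀ u, Yv G k δ h u = (k - δ + Xv G k u) - ev G k δ h u := by
    intro u
    rw [hA]
    unfold ev
    ring
  have h2 := id_two G k δ h w
  have h3 : ∑ u ∈ PH G w, (k - δ + Xv G k u) = k * (k - δ + Xv G k w) + ev G k δ h w
      + (Dj k δ - psG G k h) - eI G (PH G w) := by
    rw [hA w, ← h2]
    exact Finset.sum_congr rfl fun u _ => hA u
  have h4 : th G k δ h w = (∑ u ∈ PH G w, (k - δ + Xv G k u)) - (∑ u ∈ PH G w, ev G k δ h u)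
      - k * Yv G k δ h w := by
    unfold th
    rw [← Finset.sum_sub_distrib]
    congr 1
    exact Finset.sum_congr rfl fun u _ => hY u
  have h5 : ev G k δ h w * (∑ u ∈ PH G w, (k - δ + Xv G k u))
      ≤ (∑ u ∈ PH G w, ev G k δ h u) * (k - δ + Xv G k w) := by
    rw [Finset.mul_sum, Finset.sum_mul]
    exact Finset.sum_le_sum fun u _ => hmin u
  rw [h4, hY w]
  generalize (∑ u ∈ PH G w, ev G k δ h u) = S at h5 ⊢
  rw [h3] at h5 ⊢
  nlinarith

theorem exists_min {V : Type} [Fintype V] [Nonempty V] (G : SimpleGraph V) (k δ h : ℤ)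
    (hpos : ∀ u, 1 ≤ k - δ + Xv G k u) :
    ∃ w, ∀ u, ev G k δ h w * (k - δ + Xv G k u) ≤ ev G k δ h u * (k - δ + Xv G k w) := by
  obtain ⟨w, _, hw⟩ := Finset.exists_min_image (univ : Finset V)
    (fun u => (ev G k δ h u : ℚ) / ((k - δ + Xv G k u : ℤ) : ℚ)) univ_nonempty
  refine ⟨w, fun u => ?_⟩
  have h1 := hw u (mem_univ u)
  have pu : (0 : ℚ) < ((k - δ + Xv G k u : ℤ) : ℚ) := by
    have := hpos u
    exact_mod_cast (show (0 : ℤ) < k - δ + Xv G k u by linarith)
  have pw : (0 : ℚ) < ((k - δ + Xv G k w : ℤ) : ℚ) := by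
    have := hpos w
    exact_mod_cast (show (0 : ℤ) < k - δ + Xv G k w by linarith)
  rw [div_le_div_iff₀ pw pu] at h1
  exact_mod_cast h1

/-- the graph of a counterexample is not empty -/
theorem ext_nonempty {k δ h P : ℤ} {V : Type} [Fintype V] {G : SimpleGraph V}
    (E : Ext k δ h P G) : Nonempty V := by
  by_contra hV
  rw [not_nonempty_iff] at hV
  have hn : (Fintype.card V : ℤ) = 0 := by simp
  have hm : em G = 0 := by
    have := two_em G
    simp at this
    exact this
  have ht : tm G = 0 := by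
    have := six_tm G
    simp at this
    exact this
  have hps : psG G k h = - h * c2 (k + 1) := by
    have h0 : c2 0 = 0 := by norm_num [c2]
    unfold psG pos
    rw [hn, hm, h0]
    ring
  have hN : 1 ≤ c2 (k + 1) := by
    have h1 := two_c2 (k + 1)
    have h2 := E.hk
    nlinarith
  have h1 : 0 ≤ Dj k δ := by
    have := Dj_mono (k := k) E.hδ0 (by have := E.hδ; linarith)
    have h0 : Dj k 0 = 0 := by
      have h0 : c2 0 = 0 := by norm_num [c2]
      unfold Dj
      rw [h0]
      ring
    linarith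
  have h2 : Dj k (δ + 1) ≤ c2 (k + 1) := by
    rw [← Dj_self]
    exact Dj_mono (by have := E.hδ; linarith) le_rfl
  have hr := E.hr
  have hr' := E.hr'
  rw [hps] at hr hr'
  have hh : h = 0 := by
    rcases lt_trichotomy h 0 with h3 | h3 | h3
    · nlinarith
    · exact h3
    · nlinarith
  rw [hh] at hr
  have hδ : δ = 0 := by
    by_contra h3
    have h4 : 1 ≤ δ := by
      have := E.hδ0
      omega
    have h5 := Dj_mono (k := k) h4 (by have := E.hδ; linarith)
    have h6 : Dj k 1 = k := by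
      have h0 : c2 1 = 0 := by norm_num [c2]
      unfold Dj
      rw [h0]
      ring
    have := E.hk
    linarith
  have hv := E.val
  unfold phG at hv
  rw [hn, hm, ht, hh, hδ] at hv
  have h3 := phi_cost k 0 0 0 0 0
  have h4 : pos k 0 0 0 = 0 := by
    have h0 : c2 0 = 0 := by norm_num [c2]
    unfold pos
    rw [h0]
    ring
  have h5 : Dj k 0 = 0 := by
    have h0 : c2 0 = 0 := by norm_num [c2]
    unfold Dj
    rw [h0]
    ring
  rw [h4, h5] at h3
  have := E.hP
  linarith

/-- some vertex has excess at most one -/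
theorem ext_mindeg {k δ h P : ℤ} {V : Type} [Fintype V] {G : SimpleGraph V} (E : Ext k δ h P G) :
    ∃ v, Xv G k v ≤ 1 := by
  have hne := ext_nonempty E
  obtain ⟨v, _, hv⟩ := Finset.exists_min_image (univ : Finset V) (fun u => Xv G k u) univ_nonempty
  refine ⟨v, ?_⟩
  by_contra hX
  push Not at hX
  have hX2 : 2 ≤ Xv G k v := by omega
  have h2 := id_two G k δ h v
  have hA : ∀ u, (Fintype.card V : ℤ) - δ - dg G u = k - δ + Xv G k u := by
    intro u
    unfold Xv
    ring
  have hcard : ((PH G v).card : ℤ) = Xv G k v + k := by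
    have g1 : dg G v = (((univ : Finset V).filter fun x => G.Adj v x).card : ℤ) := by
      unfold dg ad
      rw [Finset.sum_boole]
    have g2 := Finset.card_filter_add_card_filter_not (s := (univ : Finset V)) (fun x => G.Adj v x)
    have g3 : (PH G v).card = ((univ : Finset V).filter fun x => ¬ G.Adj v x).card := rfl
    unfold Xv
    rw [g1, g3, ← Finset.card_univ, ← g2]
    push_cast
    ring
  have h3 : (Xv G k v + k) * (k - δ + Xv G k v)
      ≤ ∑ w ∈ PH G v, ((Fintype.card V : ℤ) - δ - dg G w) := by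
    rw [← hcard, ← nsmul_eq_mul]
    refine Finset.card_nsmul_le_sum _ _ _ fun u _ => ?_
    rw [hA]
    have := hv u (mem_univ u)
    linarith
  have h4 : 0 ≤ eI G (PH G v) := by
    unfold eI Pool.Agent.Helper72.LS.em
    positivity
  rw [h2, hA] at h3
  have hY : Yv G k δ h v = (k - δ + Xv G k v) - ev G k δ h v := by
    rw [← hA]
    unfold ev
    ring
  -- deletion
  have hr := E.hr
  have hr' := E.hr'
  rw [Dj_succ] at hr'
  have hδ := E.hδ
  obtain ⟨L, hL, hval⟩ := exists_valid_ge (k := k) (δ := δ) (p := psG G k h + Xv G k v - 1) hδ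
    (by linarith)
  have hLM : δ + L ≤ k - 1 := hval.1
  have hdel := ext_del E v hval
  have e1 := phi_del k δ h (Fintype.card V) (em G) (tm G) (dg G v) (eI G (NG G v))
  have e2 := pos_del k h (Fintype.card V) (em G) (dg G v)
  have e3 := phi_pred k δ h ((Fintype.card V : ℤ) - 1) (em G - dg G v) (tm G - eI G (NG G v))
  have e4 := phi_add k δ h ((Fintype.card V : ℤ) - 1) (em G - dg G v) (tm G - eI G (NG G v)) L
  have e5 : phi k δ h (Fintype.card V) (em G) (tm G) = P := E.val
  have e6 : psG G k h = pos k h (Fintype.card V) (em G) := rfl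
  have e7 : Yv G k δ h v = (Fintype.card V - k - δ - 1) * dg G v - eI G (NG G v)
    - ((Fintype.card V - 1) * (Fintype.card V - δ - 1) - c2 (Fintype.card V - 1) + c2 δ
        - h * c2 (k + 1)) := rfl
  have e8 : Xv G k v = Fintype.card V - k - dg G v := rfl
  have c1 := two_c2 (L + 1)
  have c3' := six_c3 (L + 1)
  rw [e1, e5, ← e7] at e3
  rw [e2, ← e6, ← e8] at e3 e4
  rw [e4] at hdel
  generalize Xv G k v = X at *
  generalize Yv G k δ h v = Y at *
  generalize ev G k δ h v = ε at *
  generalize psG G k h = r at *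
  generalize Dj k δ = D at *
  generalize eI G (PH G v) = m at *
  generalize phi k δ h ((Fintype.card V : ℤ) - 1) (em G - dg G v) (tm G - eI G (NG G v)) = ph at *
  generalize c2 (L + 1) = a at *
  generalize c3 (L + 1) = c at *
  obtain ⟨M, rfl⟩ : ∃ M, k = δ + M := ⟨k - δ, by ring⟩
  obtain ⟨β, rfl⟩ : ∃ β, r = D + β := ⟨r - D, by ring⟩
  have f0 : 0 ≤ L * (L - 1) := by
    rcases eq_or_lt_of_le hL with h0 | h0
    · rw [← h0]; norm_num
    · exact mul_nonneg hL (by omega)
  have f1 : 0 ≤ (L * (L - 1)) * (3 * M - L - 1) := mul_nonneg f0 (by linarith)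
  have f2 : L * (X - 2) ≤ (M - 1) * (X - 2) :=
    mul_le_mul_of_nonneg_right (by linarith) (by linarith)
  have f3 : L * β ≤ L * (M - 1) := mul_le_mul_of_nonneg_left (by omega) hL
  nlinarith

end Pool.Agent.Helper71.LS
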